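import Pool.Agent.H.MP_417230_al.C
import Pool.Agent.H.MP_e45129_gt.Defs

namespace Pool.Agent.Results.MP_e45129_gt.Yes

open Filter Topology Pool.Agent.H.MP_417230_al Pool.Agent.H.MP_54b62b_gt Pool.Agent.H.MP_e45129_gt

lemma frac_mem {H : Type} [AddCommGroup H] [TopologicalSpace H] [IsTopologicalAddGroup H]
    {U : Set H} (h : U ∈ 𝓝 0) (n : ℕ) : frac n U ∈ 𝓝 0 :=
  mem_of_superset ((eventually_all_finite (Set.finite_Icc 1 n)).2 fun k _ =>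
    (continuous_nsmul k).tendsto' 0 0 (nsmul_zero k) h) fun _ hx k h1 h2 => hx k ⟨h1, h2⟩

lemma cpt_eq {X : Type} (τ ρ : TopologicalSpace X) (h1 : @CompactSpace X τ) (h2 : @T2Space X ρ)
    (h : τ ≤ ρ) : τ = ρ :=
  le_antisymm h (continuous_id_iff_le.1 (@Homeomorph.continuous_symm X X τ ρ
    (@Continuous.homeoOfEquivCompactToT2 X X τ ρ h1 h2 (Equiv.refl X) (continuous_id_of_le h))))

theorem result (G : Type) [AddCommGroup G] [UniformSpace G] [IsUniformAddGroup G] [T2Space G]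
    [CompleteSpace G] (h1 : LocGTG G) (h2 : LocMin G) :
    ∃ N : AddSubgroup G, IsClosed (N : Set G) ∧ MinGrp N ∧ UFSS (G ⧸ N) := by
  obtain ⟨V, hV, hL⟩ := h2
  obtain ⟨W, w1, w2⟩ := lm_le hL hV
  obtain ⟨W', w3, w4⟩ := main w1 w2 (K := ⊥) isCompact_singleton
  obtain ⟨U, u1, u2, u3, -, σ, s1, s2⟩ := h1 W' w3
  have gP := @GF.nhds _ _ σ s1
  have hU : U ∈ @nhds G σ 0 := mem_of_superset (s2.mem_of_mem le_rfl) fun x hx => by
    simpa using hx 1 le_rfl le_rfl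
  generalize @nhds G σ 0 = P at gP hU s2
  clear s1 σ
  obtain ⟨N, n1, n2, n3⟩ := cluster gP (w4 _ gP (mem_of_superset hU fun x hx =>
    ⟨0, rfl, by simpa using u2 hx⟩))
  have hP : 𝓝 0 ≤ P := s2.ge_iff.2 fun n _ => frac_mem u1 n
  obtain ⟨A, a1, a2⟩ := gP.hadd hU
  obtain ⟨B, b1, b2⟩ := gP.half a1
  obtain ⟨m, m1, m2⟩ := s2.mem_iff.1 a1
  have hN (k) (hk : k ∈ N) : k ∈ A := by
    obtain ⟨y, y1, y2⟩ := clusterPt_iff_nonempty.1 (n2 k hk) (near k (hP b1)) b1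
    simpa using b2 _ y2 _ y1
  have hO := QuotientAddGroup.isOpenMap_coe (N := N).image_mem_nhds (frac_mem u1 m)
  refine ⟨N, n1.isClosed, fun ρ _ r2 r3 => ?_, _, hO, ?_, ⟨fun O => ⟨fun hO => ?_, fun ⟨n, _, h⟩ =>
    mem_of_superset (frac_mem hO n) h⟩⟩⟩
  · exact (cpt_eq _ ρ (isCompact_iff_compactSpace.1 n1) r2 r3).symm
  · rintro _ ⟨x, hx, rfl⟩
    exact ⟨-x, fun k k1 k2 => by simpa using u3 _ (hx k k1 k2), rfl⟩
  · obtain ⟨n, h3, h4⟩ := s2.mem_iff.1 (n3 _ (QuotientAddGroup.continuous_mk.tendsto 0 hO))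
    refine ⟨n, h3, fun z hz => ?_⟩
    obtain ⟨x, rfl⟩ := QuotientAddGroup.mk_surjective z
    obtain ⟨k, k1, k2⟩ := h4 (show x ∈ frac n U from fun j j1 j2 => by
      obtain ⟨y, y1, y2⟩ := hz j j1 j2
      simpa using a2 _ (hN _ (QuotientAddGroup.eq_iff_sub_mem.1 y2.symm)) _ (m2 y1))
    simpa [(QuotientAddGroup.eq_zero_iff k).2 k1] using k2

end Pool.Agent.Results.MP_e45129_gt.Yes
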